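import Pool.Agent.L0h49.H.Stm

/-! # Module CFE: an even minimal period of the continued fraction of `(t + √D) / 2` -/

set_option autoImplicit false

namespace Pool.Agent.L0h48.H

open Pool.Agent.N911 Pool.Agent.L0h49.E Pool.Agent.L0h49.H

/-- the form `F` describes the reduced number `x` -/
structure Rd (D : ℤ) (s : ℝ) (F : Fm) (x : ℝ) : Prop where
  A0 : 0 < F.A
  C0 : 0 < F.C
  hx : 2 * (F.C : ℝ) * x = F.B + s
  l1 : (F.B : ℝ) < s
  l2 : s < F.B + 2 * F.C
  hD : F.B ^ 2 + 4 * F.A * F.C = D
  ir : Irrational x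
  gx : 1 < x

theorem toNat_cast {x : ℝ} (h : 1 < x) : ((⌊x⌋.toNat : ℕ) : ℤ) = ⌊x⌋ := by
  have := floor_pos_of h
  omega

theorem Rd.step {D : ℤ} {s : ℝ} {F : Fm} {x : ℝ} (hs : s ^ 2 = D) (h : Rd D s F x) :
    Rd D s (F.step ⌊x⌋.toNat) (nextQ x) := by
  obtain ⟨i1, g1, e1⟩ := nextQ_spec h.ir
  have ha0 := floor_pos_of h.gx
  have ha1 := toNat_cast h.gx
  have lt1 := floor_lt_of h.ir
  have lt2 := Int.lt_floor_add_one x
  generalize hy : nextQ x = y at *
  generalize haa : ⌊x⌋.toNat = a at *
  rw [← ha1] at e1 ha0 lt1 lt2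
  have y0 : 0 < y := by linarith
  have e2 : (x - ((a : ℕ) : ℤ)) * y = 1 := by
    have : x - ((a : ℕ) : ℤ) = y⁻¹ := by linarith
    rw [this]
    exact inv_mul_cancel₀ y0.ne'
  have haR : (1 : ℝ) ≤ ((a : ℕ) : ℝ) := by exact_mod_cast ha0
  have C0 : (0 : ℝ) < F.C := by exact_mod_cast h.C0
  have A0 := h.A0
  have hx := h.hx
  have l1 := h.l1
  have l2 := h.l2
  have hD : ((F.B : ℤ) : ℝ) ^ 2 + 4 * F.A * F.C = D := by exact_mod_cast h.hD
  push_cast at e2 lt1 lt2
  -- the two factors
  have f1 : s - (2 * a * F.C - F.B) = 2 * F.C * (x - a) := by linear_combination -hx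
  have f2 : 2 * (F.C : ℝ) < s + (2 * a * F.C - F.B) := by nlinarith
  have f3 : 2 * ((F.A : ℝ) + a * F.B - a ^ 2 * F.C) = (x - a) * (s + (2 * a * F.C - F.B)) := by
    have : (2 * (F.C : ℝ)) * (2 * ((F.A : ℝ) + a * F.B - a ^ 2 * F.C)) =
        (2 * F.C) * ((x - a) * (s + (2 * a * F.C - F.B))) := by
      rw [← mul_assoc (2 * (F.C : ℝ)) (x - a), ← f1]
      linear_combination hD - hs
    exact mul_left_cancel₀ (by positivity) this
  have xa : 0 < x - a := by linarith
  have f4 : 0 < (F.A : ℝ) + a * F.B - a ^ 2 * F.C := by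
    have : 0 < (x - a) * (s + (2 * a * F.C - F.B)) := mul_pos xa (by linarith)
    linarith
  refine ⟨h.C0, ?_, ?_, ?_, ?_, ?_, i1, g1⟩
  · change 0 < F.A + a * F.B - (a : ℤ) ^ 2 * F.C
    exact_mod_cast f4
  · change 2 * ((F.A + a * F.B - (a : ℤ) ^ 2 * F.C : ℤ) : ℝ) * y =
      ((2 * a * F.C - F.B : ℤ) : ℝ) + s
    push_cast
    rw [f3]
    linear_combination (s + (2 * a * F.C - F.B)) * e2
  · change ((2 * a * F.C - F.B : ℤ) : ℝ) < s
    push_cast
    have : 0 < 2 * (F.C : ℝ) * (x - a) := by positivity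
    linarith
  · change s < ((2 * a * F.C - F.B : ℤ) : ℝ) + 2 * ((F.A + a * F.B - (a : ℤ) ^ 2 * F.C : ℤ) : ℝ)
    push_cast
    rw [f3]
    have : 2 * (F.C : ℝ) * (x - a) < (x - a) * (s + (2 * a * F.C - F.B)) := by
      rw [mul_comm (2 * (F.C : ℝ))]
      exact mul_lt_mul_of_pos_left f2 xa
    linarith
  · have := Fm.disc_step a F
    unfold Fm.disc at this
    rw [this]
    exact h.hD

theorem Rd.uniq {D : ℤ} {s : ℝ} {F G : Fm} {x : ℝ} (h : Rd D s F x) (g : Rd D s G x) :
    F = G := by
  have h1 : ((2 * (F.C - G.C) : ℤ) : ℝ) * x + ((G.B - F.B : ℤ) : ℝ) = 0 := by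
    push_cast
    linear_combination h.hx - g.hx
  obtain ⟨z1, z2⟩ := lin_zero h.ir h1
  have hC : F.C = G.C := by omega
  have hB : F.B = G.B := by omega
  have hA : F.A = G.A := by
    have e1 := h.hD
    have e2 := g.hD
    rw [← hC, ← hB] at e2
    have e3 : F.A * F.C = G.A * F.C := by linarith
    exact mul_right_cancel₀ h.C0.ne' e3
  cases F
  cases G
  simp only at hA hB hC
  rw [hA, hB, hC]

/-- the sequence of forms along the continued fraction -/
noncomputable def FF (α : ℝ) (f : Fm) : ℕ → Fm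
  | 0 => f
  | n + 1 => (FF α f n).step ⌊nextQ^[n + 1] α⌋.toNat

theorem FF_rd {D : ℤ} {s α : ℝ} {f : Fm} (hs : s ^ 2 = D) (h : Rd D s f (nextQ α)) (n : ℕ) :
    Rd D s (FF α f n) (nextQ^[n + 1] α) := by
  induction n with
  | zero => exact h
  | succ n ih =>
    rw [Function.iterate_succ_apply']
    exact ih.step hs

theorem FF_par {α : ℝ} {f : Fm} (n : ℕ) : (FF α f n).B % 2 = f.B % 2 := by
  induction n with
  | zero => rfl
  | succ n ih =>
    rw [← ih]
    have e2 : (FF α f (n + 1)).B = 2 * (⌊nextQ^[n + 1] α⌋.toNat * (FF α f n).C) - (FF α f n).B := by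
      change ((FF α f n).step _).B = _
      unfold Fm.step
      ring
    rw [e2]
    omega

/-- word with given letters -/
def mkW (g : ℕ → ℕ) : ℕ → ℕ → WL
  | _, 0 => .nil
  | i, n + 1 => .cons (g i) (mkW g (i + 1) n)

theorem mkW_len (g : ℕ → ℕ) (i n : ℕ) : (mkW g i n).len = n := by
  induction n generalizing i with
  | zero => rfl
  | succ n ih =>
    change (mkW g (i + 1) n).len + 1 = n + 1
    rw [ih]

theorem mkW_get (g : ℕ → ℕ) (i n j : ℕ) (h : j < n) : (mkW g i n).get j = g (i + j) := by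
  induction n generalizing i j with
  | zero => omega
  | succ n ih =>
    cases j with
    | zero => rfl
    | succ j =>
      change (mkW g (i + 1) n).get j = _
      rw [ih (i + 1) j (by omega)]
      congr 1
      omega

theorem mkW_pos (g : ℕ → ℕ) (h : ∀ i, 0 < g (i + 1)) (i n : ℕ) : (mkW g (i + 1) n).Pos := by
  induction n generalizing i with
  | zero => exact trivial
  | succ n ih => exact ⟨h i, ih (i + 1)⟩

theorem t_CFE : S_CFE := by
  intro α t P hα hirr ht h1 h2 k hk hper hmin
  have ht' : (0 : ℝ) < t := by exact_mod_cast ht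
  have hP : 1 ≤ P := by
    have : (0 : ℝ) < P := by nlinarith
    exact_mod_cast this
  have hPR : (1 : ℝ) ≤ P := by exact_mod_cast hP
  obtain ⟨s, hs⟩ : ∃ s : ℝ, s = 2 * α - t := ⟨_, rfl⟩
  obtain ⟨D, hD⟩ : ∃ D : ℤ, D = t ^ 2 + 4 * P := ⟨_, rfl⟩
  have hsD : s ^ 2 = D := by
    rw [hs, hD]
    push_cast
    linear_combination 4 * hα
  have hfl : ⌊α⌋ = t := by
    rw [Int.floor_eq_iff]
    exact ⟨h1.le, h2⟩
  have st1 : (t : ℝ) < s := by rw [hs]; linarith
  have st2 : s < t + 2 := by rw [hs]; linarith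
  obtain ⟨i1, g1, e0⟩ := nextQ_spec hirr
  rw [hfl] at e0
  have q1 : (α - t) * nextQ α = 1 := by
    have p1 : nextQ α ≠ 0 := by positivity
    have : α - t = (nextQ α)⁻¹ := by linarith
    rw [this]; exact inv_mul_cancel₀ p1
  have base : Rd D s (f0 t P) (nextQ α) := by
    refine ⟨one_pos, hP, ?_, st1, ?_, ?_, i1, g1⟩
    · change 2 * (P : ℝ) * nextQ α = (t : ℝ) + s
      have e : (P : ℝ) = α * (α - t) := by linear_combination -hα
      rw [e, hs]
      linear_combination (2 * α) * q1
    · change s < (t : ℝ) + 2 * P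
      linarith
    · change t ^ 2 + 4 * 1 * P = D
      rw [hD]; ring
  have rd := FF_rd (α := α) hsD base
  have par := FF_par (α := α) (f := f0 t P)
  generalize hF : FF α (f0 t P) = F at rd par
  have F0 : F 0 = f0 t P := by rw [← hF]; rfl
  have hstep : ∀ n, F (n + 1) = (F n).step ⌊nextQ^[n + 1] α⌋.toNat := by
    intro n; rw [← hF]; rfl
  have parB : ∀ n, (F n).B % 2 = t % 2 := par
  -- normalization of the middle coefficients when the last coefficient is one
  have norm1 : ∀ n, (F n).C = 1 → (F n).B = t ∧ nextQ^[n + 1] α = α := by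
    intro n hn
    have r := rd n
    have l1 := r.l1
    have l2 := r.l2
    rw [hn] at l2
    push_cast at l2
    have a1 : ((F n).B : ℝ) < ((t + 2 : ℤ) : ℝ) := by push_cast; linarith
    have a2 : (t : ℝ) < (((F n).B + 2 : ℤ) : ℝ) := by push_cast; linarith
    have a1' : (F n).B < t + 2 := by exact_mod_cast a1
    have a2' : t < (F n).B + 2 := by exact_mod_cast a2
    have hp := parB n
    have hB : (F n).B = t := by omega
    refine ⟨hB, ?_⟩
    have hx := r.hx
    rw [hn, hB, hs] at hx
    push_cast at hx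
    linarith
  -- after one period
  have F2k : F (2 * k) = f0 t P := by
    have r := rd (2 * k)
    rw [hper] at r
    exact r.uniq base
  obtain ⟨K, hK⟩ : ∃ K, 2 * k = K + 1 := ⟨2 * k - 1, by omega⟩
  have FK : F K = flip (f0 t P) := by
    have e := F2k
    rw [hK, hstep K] at e
    have eA : (F K).C = 1 := congrArg Fm.A e
    have eB := (norm1 K eA).1
    have eD := (rd K).hD
    rw [eA, eB, hD] at eD
    have eP : (F K).A = P := by linarith
    have : F K = ⟨(F K).A, (F K).B, (F K).C⟩ := rfl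
    rw [this, eA, eB, eP]
    rfl
  have pal : ∀ i, i ≤ K → F (K - i) = flip (F i) := by
    intro i
    induction i with
    | zero =>
      intro _
      rw [F0]
      exact FK
    | succ i ih =>
      intro hi
      have e := ih (by omega)
      obtain ⟨j, hj⟩ : ∃ j, K - i = j + 1 := ⟨K - i - 1, by omega⟩
      have hj' : K - (i + 1) = j := by omega
      rw [hj, hstep j] at e
      rw [hj', hstep i]
      generalize haj : ⌊nextQ^[j + 1] α⌋.toNat = aj at e
      have eA : (F j).C = (F i).C := congrArg Fm.A e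
      have eB : 2 * aj * (F j).C - (F j).B = (F i).B := congrArg Fm.B e
      have eC : (F j).A + aj * (F j).B - (aj : ℤ) ^ 2 * (F j).C = (F i).A := congrArg Fm.C e
      have ri := rd i
      have rj := rd j
      have hai : ⌊nextQ^[i + 1] α⌋ = (aj : ℤ) := by
        rw [Int.floor_eq_iff]
        have l1 := rj.l1
        have l2 := rj.l2
        have hx := ri.hx
        have C0 : (0 : ℝ) < (F i).C := by exact_mod_cast ri.C0
        have hB : ((F j).B : ℝ) = 2 * aj * (F i).C - (F i).B := by
          have : (F j).B = 2 * aj * (F i).C - (F i).B := by rw [← eA]; linarith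
          rw [this]
          push_cast
          ring
        rw [hB] at l1 l2
        rw [eA] at l2
        push_cast
        constructor
        · have : 2 * ((F i).C : ℝ) * aj < 2 * (F i).C * nextQ^[i + 1] α := by
            rw [hx]; linarith
          exact (lt_of_mul_lt_mul_left this (by positivity)).le
        · have : 2 * ((F i).C : ℝ) * nextQ^[i + 1] α < 2 * (F i).C * (aj + 1) := by
            rw [hx]; linarith
          exact lt_of_mul_lt_mul_left this (by positivity)
      rw [hai, Int.toNat_natCast]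
      have hB : (F j).B = 2 * aj * (F i).C - (F i).B := by rw [← eA]; linarith
      have hA : (F j).A = (F i).A + aj * (F i).B - (aj : ℤ) ^ 2 * (F i).C := by
        rw [hB, eA] at eC
        linear_combination eC
      have : F j = ⟨(F j).A, (F j).B, (F j).C⟩ := rfl
      rw [this, hA, hB, eA]
      rfl
  -- the word
  set g : ℕ → ℕ := fun i => ⌊nextQ^[i] α⌋.toNat with hg
  have gpos : ∀ i, 0 < g (i + 1) := by
    intro i
    have := floor_pos_of (rd i).gx
    have e := toNat_cast (rd i).gx
    change 0 < ⌊nextQ^[i + 1] α⌋.toNat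
    omega
  have hfs : ∀ n, n ≤ k - 1 → fs (mkW g 1 (k - 1)) (f0 t P) n = F n := by
    intro n
    induction n with
    | zero =>
      intro _
      rw [F0]
      rfl
    | succ n ih =>
      intro hn
      rw [hstep n]
      change (fs (mkW g 1 (k - 1)) (f0 t P) n).step ((mkW g 1 (k - 1)).get n) = _
      rw [ih (by omega), mkW_get g 1 (k - 1) n (by omega), add_comm 1 n]
  have hend : endF (mkW g 1 (k - 1)) (f0 t P) = F (k - 1) := by
    rw [endF_eq, mkW_len]
    exact hfs _ le_rfl
  -- no norm one inside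
  have none1 : ∀ n, n + 1 < 2 * k → (F n).C ≠ 1 := by
    intro n hn h
    have h3 := (norm1 n h).2
    apply hmin (n + 1) (by omega) hn
    rw [Function.iterate_succ_apply', h3]
  refine ⟨mkW g 1 (k - 1), g k, ?_, ?_, ?_, ?_, ?_, ?_, ?_⟩
  · exact mkW_pos g gpos 0 (k - 1)
  · rw [mkW_len]; omega
  · have := gpos (k - 1)
    rwa [show k - 1 + 1 = k by omega] at this
  · rw [hend]
    have e := pal (k - 1) (by omega)
    rw [show K - (k - 1) = k - 1 + 1 by omega, hstep (k - 1), show k - 1 + 1 = k by omega] at e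
    have eB : 2 * (g k) * (F (k - 1)).C - (F (k - 1)).B = (F (k - 1)).B := congrArg Fm.B e
    linarith
  · rw [hend]
    have a1 := (rd (k - 1)).C0
    have a2 := none1 (k - 1) (by omega)
    omega
  · intro n hn1 hn2
    rw [mkW_len] at hn2
    rw [hfs n hn2]
    obtain ⟨n', rfl⟩ : ∃ n', n = n' + 1 := ⟨n - 1, by omega⟩
    have a1 := (rd n').C0
    have a2 := none1 n' (by omega)
    have e : (F (n' + 1)).A = (F n').C := by rw [hstep n']; rfl
    rw [e]
    omega
  · intro htt n hn1 hn2 hA
    rw [mkW_len] at hn2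
    rw [hfs n hn2] at hA
    obtain ⟨n', rfl⟩ : ∃ n', n = n' + 1 := ⟨n - 1, by omega⟩
    have e : (F (n' + 1)).A = (F n').C := by rw [hstep n']; rfl
    have c1 : (F n').C = 2 := by rw [← e]; exact hA
    have p1 := pal (n' + 1) (by omega)
    have c2 : (F (K - (n' + 1))).C = 2 := by
      rw [p1]
      exact hA
    generalize hm : K - (n' + 1) = m at p1 c2
    have r1 := rd n'
    have r2 := rd m
    have b1 := parB n'
    have b2 := parB m
    have d1 := r1.hD
    have d2 := r2.hD
    rw [c1] at d1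
    rw [c2] at d2
    rw [hD] at d1 d2
    have l11 := r1.l1
    have l12 := r1.l2
    have l21 := r2.l1
    have l22 := r2.l2
    rw [c1] at l12
    rw [c2] at l22
    push_cast at l12 l22
    have x1 : ((F n').B : ℝ) < (((F m).B + 4 : ℤ) : ℝ) := by push_cast; linarith
    have x2 : ((F m).B : ℝ) < (((F n').B + 4 : ℤ) : ℝ) := by push_cast; linarith
    have x1' : (F n').B < (F m).B + 4 := by exact_mod_cast x1
    have x2' : (F m).B < (F n').B + 4 := by exact_mod_cast x2
    have hBB : (F n').B = (F m).B := by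
      obtain ⟨u, hu⟩ : ∃ u, (F n').B = 2 * u := ⟨(F n').B / 2, by omega⟩
      obtain ⟨w, hw⟩ : ∃ w, (F m).B = 2 * w := ⟨(F m).B / 2, by omega⟩
      obtain ⟨t', ht'⟩ : ∃ t', t = 2 * t' := ⟨t / 2, by omega⟩
      rw [hu, ht'] at d1
      rw [hw, ht'] at d2
      rw [hu, hw] at x1' x2' ⊢
      have e3 : u ^ 2 + 2 * (F n').A = w ^ 2 + 2 * (F m).A := by linarith
      have e4 : (u - w) * (u + w) = 2 * ((F m).A - (F n').A) := by linear_combination e3
      have e5 : (u - w) % 2 = 0 := by
        rcases Int.emod_two_eq_zero_or_one (u - w) with h | h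
        · exact h
        · exfalso
          have h' : (u + w) % 2 = 1 := by omega
          have h'' : ((u - w) * (u + w)) % 2 = 1 := by
            rw [Int.mul_emod, h, h']; rfl
          rw [e4] at h''
          omega
      omega
    have hxx : nextQ^[n' + 1] α = nextQ^[m + 1] α := by
      have y1 := r1.hx
      have y2 := r2.hx
      rw [c1, hBB] at y1
      rw [c2] at y2
      push_cast at y1 y2
      linarith
    apply hmin (2 * (n' + 1)) (by omega) (by omega)
    have z1 : nextQ^[2 * (n' + 1) + 1] α = nextQ^[n' + 2] (nextQ^[n' + 1] α) := by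
      rw [← Function.iterate_add_apply]
      congr 1
      omega
    have z2 : nextQ^[2 * k + 1] α = nextQ^[n' + 2] (nextQ^[m + 1] α) := by
      rw [← Function.iterate_add_apply]
      congr 1
      omega
    rw [z1, hxx, ← z2, hper]

end Pool.Agent.L0h48.H
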